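import Pool.Agent.Work.MP_223b32_tl.Interface

/-!
MP_223b32_ag, T1: block FA (helper31): a Frobenius automorphism of the ring of algebraic integers.
-/

set_option autoImplicit false

namespace Pool.Agent.Work.TL
namespace FA

open Polynomial

/-- the algebraic closure of `ℚ` in `ℂ` -/
abbrev K : Type := algebraicClosure ℚ ℂ

/-- the Galois group -/
abbrev G : Type := K ≃ₐ[ℚ] K

instance instClosure : IsAlgClosure ℚ K := algebraicClosure.isAlgClosure ℚ ℂ

instance instGalois : IsGalois ℚ K := ⟨⟩

instance instTotSep : TotallySeparatedSpace G := ⟨krullTopology_isTotallySeparated⟩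

theorem mem_K (x : AA) : (x : ℂ) ∈ algebraicClosure ℚ ℂ := by
  have h : IsIntegral ℤ (x : ℂ) := x.2
  exact mem_algebraicClosure_iff.2 (h.tower_top (A := ℚ)).isAlgebraic

/-- the inclusion of the algebraic integers -/
def toK : AA →+* K where
  toFun x := ⟨x, mem_K x⟩
  map_one' := rfl
  map_mul' _ _ := rfl
  map_zero' := rfl
  map_add' _ _ := rfl

theorem coe_toK (x : AA) : ((toK x : K) : ℂ) = x := rfl

theorem toK_injective : Function.Injective toK := by
  intro x y h
  exact Subtype.ext (congrArg (fun z : K => (z : ℂ)) h)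

theorem integral_coe {y : K} (h : IsIntegral ℤ y) : IsIntegral ℤ (y : ℂ) :=
  h.map ((algebraMap K ℂ).toIntAlgHom)

theorem integral_toK (x : AA) : IsIntegral ℤ (toK x) := by
  have h : IsIntegral ℤ (((algebraMap K ℂ).toIntAlgHom) (toK x)) := x.2
  exact (isIntegral_algHom_iff _ (algebraMap K ℂ).injective).1 h

/-- the action on the algebraic integers -/
noncomputable def act (g : G) (x : AA) : AA :=
  ⟨(g (toK x) : K), integral_coe ((integral_toK x).map
    ((g : K ≃+* K) : K →+* K).toIntAlgHom)⟩

theorem toK_act (g : G) (x : AA) : toK (act g x) = g (toK x) := rfl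

noncomputable instance instAct : MulSemiringAction G AA where
  smul := act
  one_smul x := toK_injective rfl
  mul_smul g h x := toK_injective rfl
  smul_zero g := toK_injective (by
    change g (toK 0) = toK 0
    rw [map_zero, map_zero])
  smul_add g x y := toK_injective (by
    change g (toK (x + y)) = toK (act g x + act g y)
    rw [map_add, map_add, map_add]; rfl)
  smul_one g := toK_injective (by
    change g (toK 1) = toK 1
    rw [map_one, map_one])
  smul_mul g x y := toK_injective (by
    change g (toK (x * y)) = toK (act g x * act g y)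
    rw [map_mul, map_mul, map_mul]; rfl)

theorem toK_smul (g : G) (x : AA) : toK (g • x) = g (toK x) := rfl

instance instTop : TopologicalSpace AA := ⊥

instance instDisc : DiscreteTopology AA := ⟨rfl⟩

instance instCont : ContinuousSMul G AA := by
  rw [continuousSMul_iff_stabilizer_isOpen]
  intro x
  have h := stabilizer_isOpen_of_isIntegral (K := ℚ) (L := K) (toK x)
  have h2 : (MulAction.stabilizer G x : Set G) = (MulAction.stabilizer G (toK x) : Set G) := by
    ext g
    simp only [SetLike.mem_coe, MulAction.mem_stabilizer_iff]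
    constructor
    · intro h
      exact congrArg toK h
    · intro h
      exact toK_injective h
  rw [h2]
  exact h

instance instInv : Algebra.IsInvariant ℤ AA G := by
  constructor
  intro b hb
  have h1 : ∀ g : G, g (toK b) = toK b := fun g => by rw [← toK_smul, hb g]
  obtain ⟨r, hr⟩ := (InfiniteGalois.mem_range_algebraMap_iff_fixed (k := ℚ) (K := K) (toK b)).2 h1
  have h2 : IsIntegral ℤ r := by
    have h3 := integral_toK b
    rw [← hr] at h3
    exact (isIntegral_algHom_iff (algebraMap ℚ K).toIntAlgHom (algebraMap ℚ K).injective).1 h3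
  obtain ⟨n, hn⟩ := (IsIntegrallyClosed.isIntegral_iff (R := ℤ) (K := ℚ)).1 h2
  refine ⟨n, toK_injective ?_⟩
  rw [← hr, ← hn]
  simp

theorem main (ρ : AA →+* Om) : ∃ σ : AA ≃+* AA, ∀ x, ρ (σ x) = ρ x ^ 2 := by
  let Q : Ideal AA := RingHom.ker ρ
  have : Q.IsPrime := RingHom.ker_isPrime ρ
  let P : Ideal ℤ := Q.under ℤ
  have : Q.LiesOver P := ⟨rfl⟩
  have : CharP Om 2 := charP_of_injective_algebraMap (algebraMap (ZMod 2) Om).injective 2
  have : CharP (AA ⧸ Q) 2 :=
    RingHom.charP (RingHom.kerLift ρ) (RingHom.kerLift_injective ρ) 2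
  have : ExpChar (AA ⧸ Q) 2 := ExpChar.prime Nat.prime_two
  have hsq : ∀ x : AA, ∃ y : AA, y ^ 2 = x := by
    intro x
    obtain ⟨y, hy⟩ := IsAlgClosed.exists_pow_nat_eq (x : ℂ) (n := 2) (by norm_num)
    have hy2 : IsIntegral ℤ y := by
      refine IsIntegral.of_pow (n := 2) (by norm_num) ?_
      rw [hy]
      exact x.2
    exact ⟨⟨y, hy2⟩, Subtype.ext hy⟩
  let σ₀ : (AA ⧸ Q) ≃ₐ[ℤ ⧸ P] (AA ⧸ Q) := AlgEquiv.ofBijective
    { toRingHom := frobenius (AA ⧸ Q) 2
      commutes' := by
        intro r
        obtain ⟨n, rfl⟩ := Ideal.Quotient.mk_surjective r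
        have h1 : algebraMap (ℤ ⧸ P) (AA ⧸ Q) (Ideal.Quotient.mk P n) = ((n : ℤ) : AA ⧸ Q) := by
          simp
        change frobenius (AA ⧸ Q) 2 _ = _
        rw [h1, map_intCast] }
    (by
      constructor
      · exact frobenius_inj (AA ⧸ Q) 2
      · intro z
        obtain ⟨x, rfl⟩ := Ideal.Quotient.mk_surjective z
        obtain ⟨y, rfl⟩ := hsq x
        refine ⟨Ideal.Quotient.mk Q y, ?_⟩
        change frobenius (AA ⧸ Q) 2 _ = _
        rw [frobenius_def, map_pow])
  obtain ⟨g, hg⟩ := Ideal.Quotient.stabilizerHom_surjective_of_profinite (G := G) P Q σ₀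
  refine ⟨MulSemiringAction.toRingEquiv G AA g, fun x => ?_⟩
  have h := DFunLike.congr_fun hg (Ideal.Quotient.mk Q x)
  have h1 : Ideal.Quotient.mk Q ((g : G) • x) = (Ideal.Quotient.mk Q x) ^ 2 := h
  have h2 : (g : G) • x - x ^ 2 ∈ Q := by
    rw [← Ideal.Quotient.eq_zero_iff_mem, map_sub, h1, map_pow, sub_self]
  have h3 : ρ ((g : G) • x - x ^ 2) = 0 := h2
  rw [map_sub, map_pow, sub_eq_zero] at h3
  exact h3

end FA

theorem stmt_FA : Stmt_FA := FA.main

end Pool.Agent.Work.TL
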