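import Pool.Agent.Work.MP_223b32_tl_helper31.FA

/-!
MP_223b32_ag, T1: block TAU (helper31): an automorphism which changes the sign of `√q`.
-/

set_option autoImplicit false

namespace Pool.Agent.Work.TL
namespace TAU

open Polynomial FA

theorem main (q : ℕ) (hq : ¬ IsSquare q) (s : AA) (hs : s ^ 2 = q) :
    ∃ τ : AA ≃+* AA, τ s = -s := by
  have hs1 : (toK s) ^ 2 = (q : K) := by
    rw [← map_pow, hs, map_natCast]
  have hirr : Irreducible (X ^ 2 - C (q : ℚ)) := by
    refine (Monic.irreducible_iff_roots_eq_zero_of_degree_le_three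
      (monic_X_pow_sub_C _ (by norm_num)) ?_ ?_).2 ?_
    · rw [natDegree_X_pow_sub_C]
    · rw [natDegree_X_pow_sub_C]
      norm_num
    · rw [Multiset.eq_zero_iff_forall_notMem]
      intro r hr
      have hr1 : (X ^ 2 - C (q : ℚ)).IsRoot r := isRoot_of_mem_roots hr
      rw [IsRoot.def, eval_sub, eval_pow, eval_X, eval_C, sub_eq_zero] at hr1
      exact hq (Rat.isSquare_natCast_iff.1 ⟨r, by rw [← hr1, pow_two]⟩)
  have hmin : minpoly ℚ (toK s) = X ^ 2 - C (q : ℚ) := by
    refine (minpoly.eq_of_irreducible_of_monic hirr ?_ (monic_X_pow_sub_C _ (by norm_num))).symm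
    rw [map_sub, map_pow, aeval_X, aeval_C, hs1]
    simp
  have hroot : aeval (-(toK s)) (minpoly ℚ (toK s)) = 0 := by
    rw [hmin, map_sub, map_pow, aeval_X, aeval_C, neg_sq, hs1]
    simp
  obtain ⟨g, hg⟩ := minpoly.exists_algEquiv_of_root' (K := ℚ) (L := K)
    (Algebra.IsAlgebraic.isAlgebraic (toK s)) hroot
  refine ⟨MulSemiringAction.toRingEquiv G AA g, toK_injective ?_⟩
  change g (toK s) = toK (-s)
  rw [hg, map_neg]

end TAU

theorem stmt_TAU : Stmt_TAU := TAU.main

end Pool.Agent.Work.TL
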